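import Pool.Agent.P.MP_985e29_pr.Hi.Final

theorem Pool.Agent.Results.MP_985e29_pr.DrawIff.result (d : ℕ) :
    MeasurableSet (Pool.Agent.P.MP_985e29_pr.drawEvent d) ∧
    ((∃ p : unitInterval, 0 < p ∧
      0 < ProbabilityTheory.setBernoulli (Set.univ : Set (Fin d → ℤ)) p
        (Pool.Agent.P.MP_985e29_pr.drawEvent d)) ↔ 3 ≤ d) :=
  Pool.Agent.P.MP_985e29_pr.Hi.main d
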