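import Pool.Agent.P.MP_985e29_pr.Two.Lat

open MeasureTheory ProbabilityTheory Pool.Agent.P.MP_985e29_pr Pool.Agent.P.MP_985e29_pr.Two

theorem Pool.Agent.Results.MP_985e29_pr.TwoParamPlane.result (d : ℕ) (hd : d ≤ 2)
    (S : Finset (Fin d → ℤ)) (l : (Fin d → ℤ) →+ ℤ) (hS : ∀ s ∈ S, Odd (l s))
    (p q : unitInterval) (h : 0 < p ∨ 0 < q) :
    (setBernoulli (Set.univ : Set (Fin d → ℤ)) p).prod (setBernoulli (Set.univ : Set (Fin d → ℤ)) q)
      {z | ∃ o, ¬ FirstWins (board S (closedSet l z)) o ∧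
        ¬ SecondWins (board S (closedSet l z)) o} = 0 :=
  plane hd hS p q h
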